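import Pool.Agent.Y120.K.Defs
import Pool.Agent.TH21.MS.JDer

/-!
# Project JK, job K-CUR: the inverse function is analytic
-/

set_option autoImplicit false

open Pool.Agent.Y120.J Pool.Agent.Y120.K
open Pool.Agent.TH21.MS (jj jj_an)
open Filter Topology Set

namespace Pool.Agent.Y170.K

/-- the inverse of an increasing analytic function with nonzero derivative -/
theorem inv_an (h : ℝ → ℝ) (Y J : ℝ) (hY : h Y = J) (hmono : StrictMonoOn h (Ici Y))
    (hlim : Tendsto h atTop atTop) (hcont : ContinuousOn h (Ici Y))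
    (han : ∀ y, Y < y → AnalyticAt ℝ h y) (hd : ∀ y, Y < y → deriv h y ≠ 0) :
    (∀ v, J < v → Y < Function.invFunOn h (Ioi Y) v ∧ h (Function.invFunOn h (Ioi Y) v) = v ∧
      AnalyticAt ℝ (Function.invFunOn h (Ioi Y)) v) ∧
    ∀ y, Y < y → Function.invFunOn h (Ioi Y) (h y) = y := by
  have hinj : InjOn h (Ioi Y) := (hmono.mono Ioi_subset_Ici_self).injOn
  have hleft : ∀ y, Y < y → Function.invFunOn h (Ioi Y) (h y) = y := fun y hy =>
    hinj.leftInvOn_invFunOn hy
  have hex : ∀ v, J < v → ∃ y ∈ Ioi Y, h y = v := by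
    intro v hv
    obtain ⟨B, hB1, hB2⟩ := ((hlim.eventually_gt_atTop v).and (eventually_ge_atTop Y)).exists
    have h1 : v ∈ Icc (h Y) (h B) := ⟨by rw [hY]; exact hv.le, hB1.le⟩
    obtain ⟨y, hy, hyv⟩ := intermediate_value_Icc hB2 (hcont.mono Icc_subset_Ici_self) h1
    refine ⟨y, ?_, hyv⟩
    rcases hy.1.lt_or_eq with h2 | h2
    · exact h2
    · rw [← h2, hY] at hyv
      exact absurd hyv hv.ne
  refine ⟨fun v hv => ?_, hleft⟩
  have h1 := Function.invFunOn_mem (hex v hv)
  have h2 := Function.invFunOn_eq (hex v hv)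
  refine ⟨h1, h2, ?_⟩
  have h3 := (analyticAt_comp_iff_of_deriv_ne_zero (g := Function.invFunOn h (Ioi Y))
    (han _ h1) (hd _ h1)).1 (by
      refine analyticAt_id.congr ?_
      filter_upwards [Ioi_mem_nhds h1] with y hy
      exact (hleft y hy).symm)
  rwa [h2] at h3

theorem Ys_pos (s : Bool) : 0 < Ys s := by
  unfold Ys
  split_ifs
  · norm_num
  · positivity

theorem Js_nonneg (s : Bool) : 0 ≤ Js s := by
  unfold Js
  split_ifs <;> norm_num

theorem ry_im (s : Bool) (y : ℝ) : (ry s y).im = y := by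
  simp [ry]

theorem ry_hasDerivAt (s : Bool) (y : ℝ) : HasDerivAt (ry s) Complex.I y := by
  have h1 : HasDerivAt (fun y : ℝ => (y : ℂ)) 1 y := Complex.ofRealCLM.hasDerivAt
  have h2 := (h1.mul_const Complex.I).const_add ((xs s : ℝ) : ℂ)
  rw [one_mul] at h2
  exact h2

theorem ry_analytic (s : Bool) (y : ℝ) : AnalyticAt ℝ (ry s) y :=
  analyticAt_const.add ((Complex.ofRealCLM.analyticAt y).mul analyticAt_const)

theorem jr_analytic (s : Bool) {y : ℝ} (hy : 0 < y) : AnalyticAt ℝ (fun y => jj (ry s y)) y := by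
  have h1 : AnalyticAt ℂ jj (ry s y) := jj_an _ (by rw [ry_im]; exact hy)
  exact h1.restrictScalars.comp (ry_analytic s y)

theorem hh_analytic (s : Bool) {y : ℝ} (hy : 0 < y) : AnalyticAt ℝ (hh s) y := by
  have h1 : AnalyticAt ℝ (fun y => (jj (ry s y)).re) y :=
    (Complex.reCLM.analyticAt _).comp (jr_analytic s hy)
  exact analyticAt_const.mul h1

theorem hh_deriv (s : Bool) (hr : T_RAY s) {y : ℝ} (hy : Ys s < y) : deriv (hh s) y ≠ 0 := by
  intro hzero
  have hy0 : 0 < y := (Ys_pos s).trans hy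
  have h1 : HasDerivAt (fun y => jj (ry s y)) (Complex.I • deriv jj (ry s y)) y :=
    HasDerivAt.scomp y (jj_an _ (by rw [ry_im]; exact hy0)).differentiableAt.hasDerivAt
      (ry_hasDerivAt s y)
  have h2 : HasDerivAt (hh s) 0 y := by
    rw [← hzero]
    exact (hh_analytic s hy0).differentiableAt.hasDerivAt
  have h3 : HasDerivAt (fun y => ((si s : ℤ) : ℂ) * ((hh s y : ℝ) : ℂ))
      (((si s : ℤ) : ℂ) * ((0 : ℝ) : ℂ)) y := (h2.ofReal_comp).const_mul _
  have h4 : (fun y => jj (ry s y)) =ᶠ[𝓝 y] fun y => ((si s : ℤ) : ℂ) * ((hh s y : ℝ) : ℂ) := by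
    filter_upwards [Ioi_mem_nhds hy] with z hz
    exact hr.1 z (le_of_lt hz)
  have h5 := (h3.congr_of_eventuallyEq h4).unique h1
  rw [Complex.ofReal_zero, mul_zero] at h5
  have h6 := (smul_eq_zero.mp h5.symm).resolve_left Complex.I_ne_zero
  exact hr.2.2.2.1 y hy h6

theorem t_cur (s : Bool) (h : T_RAY s) : T_CUR s := by
  obtain ⟨hA, hB⟩ := inv_an (hh s) (Ys s) (Js s) h.2.1 h.2.2.1 h.2.2.2.2
    (fun y hy => (hh_analytic s ((Ys_pos s).trans_le hy)).continuousAt.continuousWithinAt)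
    (fun y hy => hh_analytic s ((Ys_pos s).trans hy)) (fun y hy => hh_deriv s h hy)
  intro g hg
  have hg0 : (0 : ℝ) < (g : ℝ) := by exact_mod_cast hg
  have hJ := Js_nonneg s
  have hgJ : 0 < (g : ℝ) + Js s := by linarith
  constructor
  · intro x hx
    have hx0 : 0 < x := hx.1
    have hv : Js s < 1 / x - g := by
      have h1 : x < 1 / ((g : ℝ) + Js s) := hx.2
      have h2 : (g : ℝ) + Js s < 1 / x := (lt_one_div hx0 hgJ).mp h1
      linarith
    obtain ⟨h1, h2, h3⟩ := hA _ hv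
    refine ⟨h1, h2, ?_⟩
    have h4 : AnalyticAt ℝ (fun x : ℝ => 1 / x - g) x :=
      (analyticAt_const.div analyticAt_id hx0.ne').sub analyticAt_const
    exact AnalyticAt.comp (g := Function.invFunOn (hh s) (Ioi (Ys s)))
      (f := fun x : ℝ => 1 / x - g) h3 h4
  · intro y hy
    have h1 : Js s < hh s y := by
      rw [← h.2.1]
      exact h.2.2.1 self_mem_Ici hy.le hy
    have h2 : 0 < (g : ℝ) + hh s y := by linarith
    refine ⟨⟨by positivity, ?_⟩, ?_⟩
    · exact one_div_lt_one_div_of_lt hgJ (by linarith)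
    · unfold Yx
      have : 1 / (1 / ((g : ℝ) + hh s y)) - g = hh s y := by
        rw [one_div_one_div]
        ring
      rw [this]
      exact hB y hy

end Pool.Agent.Y170.K
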